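import Pool.Agent.Q195.HU.SJb
import Pool.Agent.Q195.HT.BN

/-!
# Project HU: the weight of a region near the centre (task BNb)
-/

set_option autoImplicit false

namespace Pool.Agent.Q195.HU

open Finset Filter Topology MeasureTheory
open Pool.Agent.W719.BS (D LL)
open Pool.Agent.Q99.HT
open Pool.Agent.Q99.HU
open Pool.Agent.Q99.KN (sn bc Wk zl ez Fk QZ kz th jN S_PZ)
open Q299.KN.Bq (norm_sin_le sinh_le_norm_sin norm_kz_le norm_ez th_bounds line_mem)
open Pool.Agent.Q195.HT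

section

variable {α : Fin 6 → ℝ} {r κ K C0 ρ : ℝ} {N : ℕ} {η : ℝ}

/-- one term of `Fk` -/
theorem term_bdb (hL : Ltn α κ C0 ρ) (hN1 : 1 ≤ N) (w : ℤ) {A b C k : ℕ} (hs : A + b + C < N)
    (hc : Cmp α A b C) (hA : |(A : ℝ) / N - α 0| ≤ ρ)
    (hb : |(b : ℝ) / N - (α 1 + α 4)| ≤ ρ) (hC : |(C : ℝ) / N - α 3| ≤ ρ) (hk : k < N) :
    ‖deriv (fun z : ℂ => ez N w z * Complex.sin (Real.pi * z / N) * Wk N z A b C) (zl N k)‖ ≤
      (Real.pi * |(w : ℝ)| / 2 + Real.pi + 1) * (C0 * N ^ 3 *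
        Real.exp (eX N α A b C - κ * dX N α A b C k / N)) := by
  have h1 := Pool.Agent.Q208.KN.step_zeta w hN1 hk (fun z => Wk N z A b C) (Wk_diff N A b C _)
  have h2 := hL.bb N A b C k hs hc hA hb hC hk
  have h3 : 0 ≤ Real.pi * |(w : ℝ)| / 2 + Real.pi := by
    have := Real.pi_pos
    positivity
  refine h1.trans ?_
  have n1 := norm_nonneg (Wk N (zl N k) A b C)
  have n2 := norm_nonneg (deriv (fun z => Wk N z A b C) (zl N k))
  have h4 := mul_le_mul_of_nonneg_left h2 (by linarith : 0 ≤ Real.pi * |(w : ℝ)| / 2 + Real.pi + 1)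
  refine le_trans ?_ h4
  have h5 := mul_nonneg h3 n2
  rw [mul_add]
  linarith

/-- the odd part is small -/
theorem delta_bdb (hF : Fr α) (hB : Blk α r κ K C0) (hL : Ltn α κ C0 ρ) (hN : 16 / r ≤ N) (hN1 : 1 ≤ N)
    (hη : |η| ≤ r / 4) {c1 c2 y0 CI Cs : ℝ} {p : ℕ} (hCs : 0 ≤ Cs)
    (hI : ∀ (Δ : ℂ → ℂ) (M : ℝ), 0 ≤ M → DifferentiableOn ℂ Δ (Metric.ball 0 (r / 2)) →
      (∀ ζ ∈ Metric.ball (0 : ℂ) (r / 2), ‖Δ ζ‖ ≤ M * Real.exp (N * (-κ * ζ.re ^ 2 + K * ζ.im ^ 2))) →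
      (∀ k < N, |(2 * (k : ℝ) + 1 - N) / N| < r / 2 → ‖Δ (zl N k / N)‖ ≤ M * Real.exp (-(c1 * N))) →
      ∀ ζ : ℂ, |ζ.re| ≤ r / 2 / 2 → |ζ.im| ≤ y0 → ‖Δ ζ‖ ≤ CI * N * M * Real.exp (-(c2 * N)))
    {A b C : ℕ} (hc : Cmp α A b C) (hA : |(A : ℝ) / N - α 0| ≤ r / 4)
    (hb : |(b : ℝ) / N - (α 1 + α 4)| ≤ r / 4) (hC : |(C : ℝ) / N - α 3| ≤ r / 4)
    (hS : ∀ k < N, |(2 * (k : ℝ) + 1 - N) / N| ≤ r / 2 → ‖Wk N (zl N k) A b C -
      VB r N α η (fun i => ((x3 N A b C i : ℝ) : ℂ)) (zl N k / N)‖ ≤ Cs * N ^ p * Real.exp (eX N α A b C - c1 * N))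
    {ζ : ℂ} (h1 : |ζ.re| ≤ r / 4) (h2 : |ζ.im| ≤ y0) :
    ‖VB r N α η (fun i => ((x3 N A b C i : ℝ) : ℂ)) ζ - VB r N α η (fun i => ((x3 N A b C i : ℝ) : ℂ)) (-ζ)‖ ≤
      CI * N * (2 * (C0 + Cs) * N ^ (p + 1) * Real.exp (eX N α A b C + N * (K * η ^ 2))) * Real.exp (-(c2 * N)) := by
  have hr := hB.r0
  have hκ := hB.κ0
  have hK : 0 < K := lt_of_lt_of_le hκ hB.κK
  have hC0 := hB.C1
  have hN1' : (1 : ℝ) ≤ N := by exact_mod_cast hN1
  have hN0 : (0 : ℝ) < N := by linarith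
  have hXm := x3_mem hr hA hb hC
  obtain ⟨V, hV⟩ : ∃ V : ℂ → ℂ, V = fun ζ => VB r N α η (fun i => ((x3 N A b C i : ℝ) : ℂ)) ζ := ⟨_, rfl⟩
  have hVz : ∀ ζ, VB r N α η (fun i => ((x3 N A b C i : ℝ) : ℂ)) ζ = V ζ := by
    intro ζ
    rw [hV]
  have hVd : ∀ ζ : ℂ, ‖ζ‖ < r → DifferentiableAt ℂ V ζ := by
    intro ζ hζ
    rw [hV]
    exact V_diff hB hN hN1 hη hXm hζ
  have hVb : ∀ ζ : ℂ, ‖ζ‖ < r → ‖V ζ‖ ≤ C0 * N * Real.exp (eX N α A b C + N * (K * η ^ 2) +
      N * (-κ * ζ.re ^ 2 + K * ζ.im ^ 2)) := by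
    intro ζ hζ
    rw [← hVz]
    exact VB_real hF hB hN hN1 hη hc hA hb hC hζ
  simp only [hVz] at hS ⊢
  have p0 : (1 : ℝ) ≤ (N : ℝ) ^ p := one_le_pow₀ hN1'
  have p1 : (N : ℝ) ≤ (N : ℝ) ^ (p + 1) := by
    rw [pow_succ]
    nlinarith
  have p2 : (N : ℝ) ^ p ≤ (N : ℝ) ^ (p + 1) := pow_le_pow_right₀ hN1' (Nat.le_succ p)
  have hKη : 0 ≤ (N : ℝ) * (K * η ^ 2) := by positivity
  refine hI (fun ζ => V ζ - V (-ζ)) _ (by positivity) ?_ ?_ ?_ ζ (by linarith) h2
  · intro ζ hζ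
    rw [mem_ball_zero_iff] at hζ
    have d1 := hVd ζ (by linarith)
    have d2 : DifferentiableAt ℂ (fun ζ => V (-ζ)) ζ := by
      have h3 : DifferentiableAt ℂ V ((fun ζ : ℂ => -ζ) ζ) := hVd (-ζ) (by rw [norm_neg]; linarith)
      exact DifferentiableAt.comp (g := V) (f := fun ζ : ℂ => -ζ) ζ h3 (by fun_prop)
    exact (d1.sub d2).differentiableWithinAt
  · intro ζ hζ
    rw [mem_ball_zero_iff] at hζ
    have b1 := hVb ζ (by linarith)
    have b2 := hVb (-ζ) (by rw [norm_neg]; linarith)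
    rw [Complex.neg_re, Complex.neg_im, neg_sq, neg_sq] at b2
    refine (norm_sub_le _ _).trans ((add_le_add b1 b2).trans ?_)
    rw [Real.exp_add (eX N α A b C + N * (K * η ^ 2))]
    obtain ⟨X, hX⟩ : ∃ X : ℝ, X = Real.exp (eX N α A b C + N * (K * η ^ 2)) := ⟨_, rfl⟩
    obtain ⟨Y, hY⟩ : ∃ Y : ℝ, Y = Real.exp (N * (-κ * ζ.re ^ 2 + K * ζ.im ^ 2)) := ⟨_, rfl⟩
    have hX0 : 0 < X := by rw [hX]; exact Real.exp_pos _
    have hY0 : 0 < Y := by rw [hY]; exact Real.exp_pos _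
    rw [← hX, ← hY]
    have q1 : C0 * N ≤ (C0 + Cs) * N ^ (p + 1) :=
      mul_le_mul (by linarith) p1 hN0.le (by linarith)
    have q2 := mul_le_mul_of_nonneg_right q1 (mul_pos hX0 hY0).le
    calc _ = 2 * (C0 * N * (X * Y)) := by ring
      _ ≤ 2 * ((C0 + Cs) * N ^ (p + 1) * (X * Y)) := by linarith
      _ = _ := by ring
  · intro k hkN hk
    have hk' : |(2 * (((N - 1 - k : ℕ)) : ℝ) + 1 - N) / N| ≤ r / 2 := by
      have h3 : (2 * (((N - 1 - k : ℕ)) : ℝ) + 1 - N) = -(2 * (k : ℝ) + 1 - N) := by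
        have h4 : N - 1 - k + k + 1 = N := by omega
        have h5 : ((N - 1 - k : ℕ) : ℝ) + k + 1 = N := by exact_mod_cast h4
        linarith
      rw [h3, neg_div, abs_neg]
      exact hk.le
    have b1 := hS k hkN hk.le
    have b2 := hS (N - 1 - k) (by omega) hk'
    rw [zl_refl hkN, hL.ev N A b C (sum_lt hF hB hN1 hA hb hC), neg_div] at b2
    have e1 : V (zl N k / N) - V (-(zl N k / N)) =
        (Wk N (zl N k) A b C - V (-(zl N k / N))) - (Wk N (zl N k) A b C - V (zl N k / N)) := by ring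
    show ‖V (zl N k / N) - V (-(zl N k / N))‖ ≤ _
    rw [e1]
    refine (norm_sub_le _ _).trans ((add_le_add b2 b1).trans ?_)
    have e2 : Real.exp (eX N α A b C - c1 * N) ≤ Real.exp (eX N α A b C + N * (K * η ^ 2)) * Real.exp (-(c1 * N)) := by
      rw [← Real.exp_add]
      apply Real.exp_le_exp.2
      linarith
    obtain ⟨X, hX⟩ : ∃ X : ℝ, X = Real.exp (eX N α A b C + N * (K * η ^ 2)) * Real.exp (-(c1 * N)) := ⟨_, rfl⟩
    have hX0 : 0 < X := by rw [hX]; positivity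
    rw [← hX] at e2
    have q1 : Cs * N ^ p ≤ (C0 + Cs) * N ^ (p + 1) :=
      mul_le_mul (by linarith) p2 (by positivity) (by linarith)
    have q2 := mul_le_mul q1 e2 (Real.exp_pos _).le (by positivity)
    calc _ = 2 * (Cs * N ^ p * Real.exp (eX N α A b C - c1 * N)) := by ring
      _ ≤ 2 * ((C0 + Cs) * N ^ (p + 1) * X) := by linarith
      _ = _ := by rw [hX]; ring

end

theorem task_BNb : S_BNb := by
  intro hGPX hPZ hPZ2 hINT hSJ α r κ K C0 ρ hF hB hL hrρ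
  have hr := hB.r0
  have hr64 := hB.r1
  have hr1 : r ≤ 1 / 16 := by linarith
  have hκ := hB.κ0
  have hK : 0 < K := lt_of_lt_of_le hκ hB.κK
  have hC0 := hB.C1
  have hpi := Real.pi_pos
  obtain ⟨τ1, c1, hτ1, hc1, hSJ'⟩ := hSJ α r κ K C0 ρ hF hB hL
  obtain ⟨y0, c2, CI, hy0, hc2, NI, hI⟩ := hINT (r / 2) κ K c1 (by positivity) (by linarith) hκ hK hc1
  obtain ⟨Cp, hCp⟩ := hPZ2 hPZ r hr hr1
  obtain ⟨m, hm⟩ : ∃ m, m = min (κ * r ^ 2 / 128) (c2 / 2) := ⟨_, rfl⟩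
  have hm0 : 0 < m := by rw [hm]; positivity
  have hm1 : m ≤ κ * r ^ 2 / 128 := hm ▸ min_le_left _ _
  have hm2 : m ≤ c2 / 2 := hm ▸ min_le_right _ _
  obtain ⟨τ0, hτ0⟩ : ∃ τ0, τ0 = min (min τ1 y0) (min (r / 8) (m / (1 + 2 * K))) := ⟨_, rfl⟩
  have hτp : 0 < τ0 := by rw [hτ0]; positivity
  have hτa : τ0 ≤ τ1 := by rw [hτ0]; exact (min_le_left _ _).trans (min_le_left _ _)
  have hτb : τ0 ≤ y0 := by rw [hτ0]; exact (min_le_left _ _).trans (min_le_right _ _)
  have hτc : τ0 ≤ r / 8 := by rw [hτ0]; exact (min_le_right _ _).trans (min_le_left _ _)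
  have hτd : τ0 * (1 + 2 * K) ≤ m := by
    have : τ0 ≤ m / (1 + 2 * K) := by rw [hτ0]; exact (min_le_right _ _).trans (min_le_right _ _)
    rwa [le_div_iff₀ (by positivity)] at this
  obtain ⟨c, hc⟩ : ∃ c, c = min (min c1 (c2 / 2)) (κ * r ^ 2 / 256) := ⟨_, rfl⟩
  have hcp : 0 < c := by rw [hc]; positivity
  have hca : c ≤ c1 := by rw [hc]; exact (min_le_left _ _).trans (min_le_left _ _)
  have hcb : c ≤ c2 / 2 := by rw [hc]; exact (min_le_left _ _).trans (min_le_right _ _)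
  have hcc : c ≤ κ * r ^ 2 / 256 := by rw [hc]; exact min_le_right _ _
  refine ⟨τ0, c, hτp, hcp, fun w y η hy hyτ hwy hη => ?_⟩
  obtain ⟨Cs, p, N0, hS⟩ := hSJ' η (hη.trans hτa)
  obtain ⟨E1, hE1⟩ : ∃ E1 : ℝ, E1 = Real.pi * |(w : ℝ)| / 2 + Real.pi + 1 := ⟨_, rfl⟩
  have hE10 : 0 < E1 := by rw [hE1]; positivity
  refine ⟨E1 * C0 + E1 * |Cs| + |Cp| * (Real.exp 4 * C0) + Real.exp 4 * |CI| * (C0 + |Cs|) / y ^ 2 +
    Real.exp 4 * C0 / y ^ 2, p + 4, max N0 (max NI ⌈16 / r⌉₊), fun N hN => ?_⟩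
  have hNa : N0 ≤ N := (le_max_left _ _).trans hN
  have hNb : NI ≤ N := ((le_max_left _ _).trans (le_max_right _ _)).trans hN
  have hNc : 16 / r ≤ N := by
    have h1 : ⌈16 / r⌉₊ ≤ N := ((le_max_right _ _).trans (le_max_right _ _)).trans hN
    exact (Nat.le_ceil _).trans (by exact_mod_cast h1)
  obtain ⟨hN1, hth1, hth2, hj⟩ := th_bounds hr hr1 hNc
  have hN1' : (1 : ℝ) ≤ N := by exact_mod_cast hN1
  have hN0 : (0 : ℝ) < N := by linarith
  have hη4 : |η| ≤ r / 4 := by linarith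
  have hyr : y ≤ r / 2 := by linarith
  have hη2 : K * η ^ 2 ≤ K * τ0 := by
    apply mul_le_mul_of_nonneg_left _ hK.le
    rw [← sq_abs]
    nlinarith [abs_nonneg η]
  have hy2 : K * y ^ 2 ≤ K * τ0 := by
    apply mul_le_mul_of_nonneg_left _ hK.le
    nlinarith
  obtain ⟨k1, k2, k3, k4, k5⟩ : 0 ≤ E1 * C0 ∧ 0 ≤ E1 * |Cs| ∧ 0 ≤ |Cp| * (Real.exp 4 * C0) ∧
      0 ≤ Real.exp 4 * |CI| * (C0 + |Cs|) / y ^ 2 ∧ 0 ≤ Real.exp 4 * C0 / y ^ 2 := by
    refine ⟨?_, ?_, ?_, ?_, ?_⟩ <;> positivity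
  have pw : ∀ j : ℕ, j ≤ p + 4 → (N : ℝ) ^ j ≤ (N : ℝ) ^ (p + 4) := fun j hj => pow_le_pow_right₀ hN1' hj
  refine ⟨FZ_LD hB hNc hη4 hy hyr w, ?_, ?_⟩
  · intro ξ hξ hA
    refine (FZ_bd hF hB hNc hη4 hy hyr w hξ hA).trans ?_
    apply mul_le_mul_of_nonneg_right _ (Real.exp_pos _).le
    exact mul_le_mul (by linarith) (pw 2 (by omega)) (by positivity) (by linarith)
  · intro A b C hcm hA hb hC
    have hsum := sum_lt hF hB hN1 hA hb hC
    have hXm := x3_mem hr hA hb hC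
    rw [← x3_c, FZ_eq]
    obtain ⟨X, hX⟩ : ∃ X : Fin 3 → ℂ, X = fun i => ((x3 N A b C i : ℝ) : ℂ) := ⟨_, rfl⟩
    obtain ⟨Y, hY⟩ : ∃ Y : ℝ, Y = Real.exp (eX N α A b C - c * N) := ⟨_, rfl⟩
    have hY0 : 0 < Y := by rw [hY]; exact Real.exp_pos _
    have hYle : ∀ c' : ℝ, c ≤ c' → Real.exp (eX N α A b C - c' * N) ≤ Y := by
      intro c' h
      rw [hY]
      apply Real.exp_le_exp.2
      have := mul_le_mul_of_nonneg_right h hN0.le
      linarith
    -- the approximation at the lattice points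
    have hS3 : ∀ k < N, |(2 * (k : ℝ) + 1 - N) / N| ≤ r / 2 →
        ‖Wk N (zl N k) A b C - VB r N α η X (zl N k / N)‖ +
        ‖deriv (fun z => Wk N z A b C) (zl N k) - deriv (fun z : ℂ => VB r N α η X (z / N)) (zl N k)‖ ≤
        |Cs| * N ^ p * Real.exp (eX N α A b C - c1 * N) := by
      intro k hkN hk
      have h1 := (hS N hNa).2.2 A b C k hcm hA hb hC hkN hk
      rw [← x3_c, ← hX] at h1
      refine h1.trans ?_
      apply mul_le_mul_of_nonneg_right _ (Real.exp_pos _).le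
      exact mul_le_mul_of_nonneg_right (le_abs_self _) (by positivity)
    -- the sum
    have hsub : Ico (jN r N) (N - jN r N) ⊆ range N := by
      intro k hk
      exact Finset.mem_range.2 (core_k hr hr1 hNc hk).1
    have hsplit : Fk N w A b C = ∑ k ∈ range N \ Ico (jN r N) (N - jN r N),
        deriv (fun z : ℂ => ez N w z * Complex.sin (Real.pi * z / N) * Wk N z A b C) (zl N k) +
        ∑ k ∈ Ico (jN r N) (N - jN r N),
        deriv (fun z : ℂ => ez N w z * Complex.sin (Real.pi * z / N) * Wk N z A b C) (zl N k) := by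
      unfold Fk
      exact (Finset.sum_sdiff hsub).symm
    have hO : ‖∑ k ∈ range N \ Ico (jN r N) (N - jN r N),
        deriv (fun z : ℂ => ez N w z * Complex.sin (Real.pi * z / N) * Wk N z A b C) (zl N k)‖ ≤
        E1 * C0 * N ^ (p + 4) * Y := by
      refine (norm_sum_le _ _).trans ?_
      have key : ∀ k ∈ range N \ Ico (jN r N) (N - jN r N),
          ‖deriv (fun z : ℂ => ez N w z * Complex.sin (Real.pi * z / N) * Wk N z A b C) (zl N k)‖ ≤
          E1 * (C0 * N ^ 3 * Y) := by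
        intro k hk
        rw [Finset.mem_sdiff, Finset.mem_range] at hk
        have h1 := term_bdb hL hN1 w hsum hcm (by linarith) (by linarith) (by linarith) hk.1
        rw [← hE1] at h1
        refine h1.trans ?_
        apply mul_le_mul_of_nonneg_left _ hE10.le
        apply mul_le_mul_of_nonneg_left _ (by positivity)
        refine le_trans ?_ (hYle _ hcc)
        apply Real.exp_le_exp.2
        have h2 := outer_k (α := α) hr hr1 hNc (A := A) (b := b) (C := C) hk.2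
        have h3 : κ * r ^ 2 / 256 * N ≤ κ * dX N α A b C k / N := by
          rw [le_div_iff₀ hN0]
          have h4 := mul_le_mul_of_nonneg_left h2 hκ.le
          calc _ = κ * (r / 16 * N) ^ 2 := by ring
            _ ≤ _ := h4
        linarith
      have h := Finset.sum_le_card_nsmul _ _ _ key
      rw [nsmul_eq_mul] at h
      refine h.trans ?_
      have hcard : ((range N \ Ico (jN r N) (N - jN r N)).card : ℝ) ≤ N := by
        have h1 := Finset.card_le_card (Finset.sdiff_subset (s := range N) (t := Ico (jN r N) (N - jN r N)))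
        rw [Finset.card_range] at h1
        exact_mod_cast h1
      have h4 : (N : ℝ) ^ 4 * (E1 * C0 * Y) ≤ N ^ (p + 4) * (E1 * C0 * Y) :=
        mul_le_mul_of_nonneg_right (pw 4 (by omega)) (by positivity)
      have h5 := mul_le_mul_of_nonneg_right hcard (by positivity : 0 ≤ E1 * (C0 * N ^ 3 * Y))
      refine h5.trans ?_
      have e1 : (N : ℝ) * (E1 * (C0 * N ^ 3 * Y)) = N ^ 4 * (E1 * C0 * Y) := by ring
      have e2 : E1 * C0 * N ^ (p + 4) * Y = N ^ (p + 4) * (E1 * C0 * Y) := by ring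
      rw [e1, e2]
      exact h4
    have hCo : ‖∑ k ∈ Ico (jN r N) (N - jN r N),
        deriv (fun z : ℂ => ez N w z * Complex.sin (Real.pi * z / N) * Wk N z A b C) (zl N k) -
        ∑ k ∈ Ico (jN r N) (N - jN r N), deriv (fun z : ℂ => ff r N α w η X (z / N)) (zl N k)‖ ≤
        E1 * |Cs| * N ^ (p + 4) * Y := by
      rw [← Finset.sum_sub_distrib]
      refine (norm_sum_le _ _).trans ?_
      have key : ∀ k ∈ Ico (jN r N) (N - jN r N),
          ‖deriv (fun z : ℂ => ez N w z * Complex.sin (Real.pi * z / N) * Wk N z A b C) (zl N k) -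
          deriv (fun z : ℂ => ff r N α w η X (z / N)) (zl N k)‖ ≤ E1 * (|Cs| * N ^ p * Y) := by
        intro k hk
        obtain ⟨hkN, hk2⟩ := core_k hr hr1 hNc hk
        have h0 := hS3 k hkN hk2
        have h1 := core_bd hB hNc hN1 hη4 w (ξ := X) (by rw [hX]; exact hXm) hkN hk2 h0
        rw [← hE1] at h1
        refine h1.trans ?_
        apply mul_le_mul_of_nonneg_left _ hE10.le
        apply mul_le_mul_of_nonneg_left _ (by positivity)
        exact hYle _ hca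
      have h := Finset.sum_le_card_nsmul _ _ _ key
      rw [nsmul_eq_mul] at h
      refine h.trans ?_
      have hcard : ((Ico (jN r N) (N - jN r N)).card : ℝ) ≤ N := by
        have h1 := Finset.card_le_card hsub
        rw [Finset.card_range] at h1
        exact_mod_cast h1
      have h4 : (N : ℝ) ^ (p + 1) * (E1 * |Cs| * Y) ≤ N ^ (p + 4) * (E1 * |Cs| * Y) :=
        mul_le_mul_of_nonneg_right (pw (p + 1) (by omega)) (by positivity)
      have h5 := mul_le_mul_of_nonneg_right hcard (by positivity : 0 ≤ E1 * (|Cs| * N ^ p * Y))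
      refine h5.trans ?_
      have e1 : (N : ℝ) * (E1 * (|Cs| * N ^ p * Y)) = N ^ (p + 1) * (E1 * |Cs| * Y) := by ring
      have e2 : E1 * |Cs| * N ^ (p + 4) * Y = N ^ (p + 4) * (E1 * |Cs| * Y) := by ring
      rw [e1, e2]
      exact h4
    -- the integral
    have hfd := ff_diff hB hNc hN1 hη4 w hXm
    have hgd : DifferentiableOn ℂ (fun ζ => -ff r N α w η (fun i => ((x3 N A b C i : ℝ) : ℂ)) (-ζ)) (Metric.ball 0 r) := by
      refine DifferentiableOn.neg ?_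
      refine hfd.comp (f := fun ζ : ℂ => -ζ) (by fun_prop) ?_
      intro ζ hζ
      rw [mem_ball_zero_iff] at hζ ⊢
      rwa [norm_neg]
    have hside : τ0 + K * η ^ 2 + K * y ^ 2 ≤ κ * r ^ 2 / 128 := by
      have e : τ0 * (1 + 2 * K) = τ0 + K * τ0 + K * τ0 := by ring
      rw [e] at hτd
      linarith
    have hP := hCp N hNc (ff r N α w η (fun i => ((x3 N A b C i : ℝ) : ℂ))) hfd y
      (Real.exp 4 * C0 * N * Real.exp (eX N α A b C - κ * r ^ 2 / 256 * N)) hy hyr ?_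
    · have hQ : ‖QZ r N y (ff r N α w η (fun i => ((x3 N A b C i : ℝ) : ℂ))) -
          QZ r N y (fun ζ => -ff r N α w η (fun i => ((x3 N A b C i : ℝ) : ℂ)) (-ζ))‖ ≤
          2 * (Real.exp 4 * |CI| * (C0 + |Cs|) / y ^ 2) * N ^ (p + 4) * Y := by
        rw [QZ_sub hr hr1 hNc hy hyr hfd.continuousOn hgd.continuousOn]
        obtain ⟨Z, hZ⟩ : ∃ Z : ℝ, Z = |CI| * N * (2 * (C0 + |Cs|) * N ^ (p + 1) *
          Real.exp (eX N α A b C + N * (K * η ^ 2))) * Real.exp (-(c2 * N)) := ⟨_, rfl⟩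
        have hZ0 : 0 ≤ Z := by rw [hZ]; positivity
        refine (QZ_bd hr hr1 hNc hy (Q := Real.exp 4 * Real.exp (N * τ0) * Z) (by positivity) ?_).trans ?_
        · intro x hx
          have hx4 : |x| ≤ r / 4 := by
            rw [abs_le]
            exact ⟨by linarith [hx.1], by linarith [hx.2]⟩
          have e1 : ff r N α w η (fun i => ((x3 N A b C i : ℝ) : ℂ)) (x + y * Complex.I) -
              -ff r N α w η (fun i => ((x3 N A b C i : ℝ) : ℂ)) (-(x + y * Complex.I)) =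
              ez N w (N * (x + y * Complex.I)) * Complex.sin (Real.pi * (x + y * Complex.I)) *
              (VB r N α η (fun i => ((x3 N A b C i : ℝ) : ℂ)) (x + y * Complex.I) -
                VB r N α η (fun i => ((x3 N A b C i : ℝ) : ℂ)) (-(x + y * Complex.I))) := by
            unfold ff
            rw [ez_even, mul_neg (Real.pi : ℂ), Complex.sin_neg]
            ring
          rw [e1, norm_mul]
          have b1 := es_bd hN1 w (x := x) (t := y) (y := y) (τ := τ0) (by linarith)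
            (by rw [abs_of_pos hy]) (by linarith) hwy
          have re1 : ((x : ℂ) + y * Complex.I).re = x := by simp
          have im1 : ((x : ℂ) + y * Complex.I).im = y := by simp
          have b2 := delta_bdb hF hB hL hNc hN1 hη4 (abs_nonneg Cs) (hI N hNb) hcm hA hb hC
            (fun k hkN hk => (le_add_of_nonneg_right (norm_nonneg _)).trans (by
              have h9 := hS3 k hkN hk
              rw [hX] at h9
              exact h9)) (ζ := (x : ℂ) + y * Complex.I) (by rw [re1]; exact hx4)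
            (by rw [im1, abs_of_pos hy]; linarith)
          refine mul_le_mul b1 (b2.trans ?_) (norm_nonneg _) (by positivity)
          rw [hZ]
          apply mul_le_mul_of_nonneg_right _ (Real.exp_pos _).le
          apply mul_le_mul_of_nonneg_right _ (by positivity)
          exact mul_le_mul_of_nonneg_right (le_abs_self _) hN0.le
        · have e1 : Real.exp (N * τ0) * (Real.exp (eX N α A b C + N * (K * η ^ 2)) * Real.exp (-(c2 * N))) ≤ Y := by
            rw [← Real.exp_add, ← Real.exp_add]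
            refine le_trans ?_ (hYle _ hcb)
            apply Real.exp_le_exp.2
            have h1 : τ0 + K * η ^ 2 ≤ c2 / 2 := by
              have e : τ0 * (1 + 2 * K) = τ0 + K * τ0 + K * τ0 := by ring
              rw [e] at hτd
              have : 0 < K * τ0 := by positivity
              linarith
            have h2 := mul_le_mul_of_nonneg_left h1 hN0.le
            linarith
          obtain ⟨U, hU⟩ : ∃ U : ℝ, U = Real.exp 4 * |CI| * (C0 + |Cs|) / y ^ 2 := ⟨_, rfl⟩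
          rw [← hU] at k4 ⊢
          have e2 : (N : ℝ) * (Real.exp 4 * Real.exp (N * τ0) * Z / y ^ 2) = 2 * U * N ^ (p + 3) *
              (Real.exp (N * τ0) * (Real.exp (eX N α A b C + N * (K * η ^ 2)) * Real.exp (-(c2 * N)))) := by
            rw [hZ, hU]
            ring
          rw [e2]
          apply mul_le_mul _ e1 (by positivity) (by positivity)
          exact mul_le_mul_of_nonneg_left (pw (p + 3) (by omega)) (by positivity)
      have hB2 : Cp * N * (Real.exp 4 * C0 * N * Real.exp (eX N α A b C - κ * r ^ 2 / 256 * N)) ≤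
          |Cp| * (Real.exp 4 * C0) * N ^ (p + 4) * Y := by
        have h1 := hYle _ hcc
        have h2 : Cp * N * (Real.exp 4 * C0 * N * Real.exp (eX N α A b C - κ * r ^ 2 / 256 * N)) ≤
            |Cp| * N * (Real.exp 4 * C0 * N * Y) := by
          apply mul_le_mul _ _ (by positivity) (by positivity)
          · exact mul_le_mul_of_nonneg_right (le_abs_self _) hN0.le
          · exact mul_le_mul_of_nonneg_left h1 (by positivity)
        have h3 : (N : ℝ) ^ 2 * (|Cp| * (Real.exp 4 * C0) * Y) ≤ N ^ (p + 4) * (|Cp| * (Real.exp 4 * C0) * Y) :=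
          mul_le_mul_of_nonneg_right (pw 2 (by omega)) (by positivity)
        have e1 : |Cp| * N * (Real.exp 4 * C0 * N * Y) = (N : ℝ) ^ 2 * (|Cp| * (Real.exp 4 * C0) * Y) := by ring
        have e2 : |Cp| * (Real.exp 4 * C0) * N ^ (p + 4) * Y = N ^ (p + 4) * (|Cp| * (Real.exp 4 * C0) * Y) := by ring
        rw [e2]
        rw [e1] at h2
        linarith
      have hP2 := hP.trans hB2
      rw [hX] at hCo
      rw [hsplit]
      obtain ⟨S1, hS1⟩ : ∃ S1 : ℂ, S1 = ∑ k ∈ range N \ Ico (jN r N) (N - jN r N),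
        deriv (fun z : ℂ => ez N w z * Complex.sin (Real.pi * z / N) * Wk N z A b C) (zl N k) := ⟨_, rfl⟩
      obtain ⟨S2, hS2⟩ : ∃ S2 : ℂ, S2 = ∑ k ∈ Ico (jN r N) (N - jN r N),
        deriv (fun z : ℂ => ez N w z * Complex.sin (Real.pi * z / N) * Wk N z A b C) (zl N k) := ⟨_, rfl⟩
      obtain ⟨S4, hS4⟩ : ∃ S4 : ℂ, S4 = ∑ k ∈ Ico (jN r N) (N - jN r N),
        deriv (fun z : ℂ => ff r N α w η (fun i => ((x3 N A b C i : ℝ) : ℂ)) (z / N)) (zl N k) := ⟨_, rfl⟩
      obtain ⟨Q1, hQ1⟩ : ∃ Q1 : ℂ, Q1 = QZ r N y (ff r N α w η (fun i => ((x3 N A b C i : ℝ) : ℂ))) := ⟨_, rfl⟩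
      obtain ⟨Q2, hQ2⟩ : ∃ Q2 : ℂ, Q2 = QZ r N y (fun ζ => -ff r N α w η (fun i => ((x3 N A b C i : ℝ) : ℂ)) (-ζ)) := ⟨_, rfl⟩
      rw [← hS1] at hO ⊢
      rw [← hS2, ← hS4] at hCo
      rw [← hS2, ← hQ1]
      rw [← hS4, ← hQ1, ← hQ2] at hP2
      rw [← hQ1, ← hQ2] at hQ
      have e0 : S1 + S2 - Q1 = S1 + (S2 - S4) + (S4 - (Q1 + Q2) / 2) + (-(1 / 2 : ℂ)) * (Q1 - Q2) := by ring
      have t1 := norm_add_le (S1 + (S2 - S4) + (S4 - (Q1 + Q2) / 2)) ((-(1 / 2 : ℂ)) * (Q1 - Q2))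
      have t2 := norm_add_le (S1 + (S2 - S4)) (S4 - (Q1 + Q2) / 2)
      have t3 := norm_add_le S1 (S2 - S4)
      have t4 : ‖(-(1 / 2 : ℂ)) * (Q1 - Q2)‖ = 1 / 2 * ‖Q1 - Q2‖ := by
        rw [norm_mul, norm_neg]
        norm_num
      rw [e0]
      rw [t4] at t1
      have t5 : 0 ≤ Real.exp 4 * C0 / y ^ 2 * N ^ (p + 4) * Y := by positivity
      have e5 : (E1 * C0 + E1 * |Cs| + |Cp| * (Real.exp 4 * C0) + Real.exp 4 * |CI| * (C0 + |Cs|) / y ^ 2 +
          Real.exp 4 * C0 / y ^ 2) * N ^ (p + 4) * Y = E1 * C0 * N ^ (p + 4) * Y + E1 * |Cs| * N ^ (p + 4) * Y +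
          |Cp| * (Real.exp 4 * C0) * N ^ (p + 4) * Y + 1 / 2 * (2 * (Real.exp 4 * |CI| * (C0 + |Cs|) / y ^ 2) * N ^ (p + 4) * Y) +
          Real.exp 4 * C0 / y ^ 2 * N ^ (p + 4) * Y := by ring
      rw [← hY, e5]
      linarith
    · intro t ht
      have ht' : |t| ≤ y := abs_le.2 ht
      constructor
      · exact side_bd hF hB hNc hη4 w hcm hA hb hC hyr hwy hside
          (by rw [abs_of_pos (by linarith)]) ht'
      · have h1 := side_bd hF hB hNc hη4 w hcm hA hb hC hyr hwy hside (s := -th r N)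
          (by rw [abs_neg, abs_of_pos (by linarith)]) ht'
        have e : ((-th r N : ℝ) : ℂ) = -(th r N : ℂ) := by push_cast; rfl
        rw [e] at h1
        exact h1

end Pool.Agent.Q195.HU
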