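import Pool.Agent.Q99.HU.Stm1
import Pool.Agent.Q195.HT.SJ

/-!
# Project HU: the step in the summation index (task SJb)
-/

set_option autoImplicit false

namespace Pool.Agent.Q195.HU

open Finset Filter Topology MeasureTheory
open Pool.Agent.W719.BS (D LL)
open Pool.Agent.Q99.HT
open Pool.Agent.Q99.HU
open Pool.Agent.Q99.KN (sn bc Wk zl ez Fk QZ kz th jN)
open Pool.Agent.Q195.HT

theorem Akb {r : ℝ} {N : ℕ} (hr : 0 < r) (hN : 16 / r ≤ N)
    {x : ℝ} (hx : x ≤ 1 / 2 - 32 * r) {A k : ℕ} (hA : |(A : ℝ) / N - x| ≤ r / 4)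
    (hk : |(2 * (k : ℝ) + 1 - N) / N| ≤ r / 2) : A ≤ k ∧ A + k < N := by
  obtain ⟨hN0, hN1, hN2⟩ := half_le hr hN
  have hA' := (abs_le.1 hA).2
  rw [abs_div, abs_of_pos hN0, div_le_iff₀ hN0, abs_le] at hk
  have h1 : (A : ℝ) ≤ (1 / 2 - 31 * r) * N := by
    rw [← div_le_iff₀ hN0]
    linarith
  have h2 : (1 / 2 - 31 * r) * N = N / 2 - 31 * (r * N) := by ring
  constructor
  · have : (A : ℝ) ≤ k := by linarith [hk.1]
    exact_mod_cast this
  · have : (A : ℝ) + k < N := by linarith [hk.2]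
    exact_mod_cast this

/-- the corners which are not too large -/
theorem sml0 {α : Fin 6 → ℝ} {r κ K C0 : ℝ} (hB : Blk α r κ K C0) :
    α 0 ≤ 1 / 2 - 32 * r ∧ α 3 ≤ 1 / 2 - 32 * r := by
  have hr1 := hB.r1
  constructor
  · by_cases h : ctr α 0 = 0
    · have h' : α 0 = 0 := h
      linarith
    · have h2 := (hB.sml 0 h).2
      have e : ctr α 0 = α 0 := rfl
      rw [e] at h2
      linarith
  · by_cases h : ctr α 3 = 0
    · have h' : α 3 = 0 := h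
      linarith
    · have h2 := (hB.sml 3 h).2
      have e : ctr α 3 = α 3 := rfl
      rw [e] at h2
      linarith

/-- the main case -/
theorem case1b {α : Fin 6 → ℝ} {r κ K C0 ρ : ℝ} {N : ℕ} {η : ℝ} (hF : Fr α)
    (hB : Blk α r κ K C0) (hL : Ltn α κ C0 ρ) (hN : 16 / r ≤ N) (hN1 : 1 ≤ N) (hη : |η| ≤ r / 4)
    (h : α 1 ≠ 0) {c1 : ℝ} (hc1 : c1 ≤ κ * r ^ 2 / 64) {A b C k : ℕ} (hc : Cmp α A b C)
    (hA : |(A : ℝ) / N - α 0| ≤ r / 4) (hb : |(b : ℝ) / N - (α 1 + α 4)| ≤ r / 4)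
    (hC : |(C : ℝ) / N - α 3| ≤ r / 4) (hkN : k < N) (hk : |(2 * (k : ℝ) + 1 - N) / N| ≤ r / 2)
    {Bd : ℝ} (hBd : ∀ ζ : ℂ, ‖ζ‖ < r → |ζ.im| ≤ 1 / N →
      ‖∑ y ∈ Icc (ja r N (α 1)) (jb r N (α 1)), PB N α (v4 (fun i => (x3 N A b C i : ℂ)) ((y : ℂ) / N)) ζ -
        VB r N α η (fun i => (x3 N A b C i : ℂ)) ζ‖ ≤ Bd) :
    ‖Wk N (zl N k) A b C - VB r N α η ![(A : ℂ) / N, (b : ℂ) / N, (C : ℂ) / N] (zl N k / N)‖ +
    ‖deriv (fun z => Wk N z A b C) (zl N k) -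
      deriv (fun z : ℂ => VB r N α η ![(A : ℂ) / N, (b : ℂ) / N, (C : ℂ) / N] (z / N)) (zl N k)‖ ≤
      N * (C0 * N ^ 2 * Real.exp (eX N α A b C - c1 * N)) + 2 * Bd := by
  classical
  have hr := hB.r0
  have hr1 := hB.r1
  have hκ := hB.κ0
  have hC0 := hB.C1
  obtain ⟨hN0, hN16, -⟩ := half_le hr hN
  have hNc : (N : ℂ) ≠ 0 := by exact_mod_cast hN0.ne'
  obtain ⟨X, hX⟩ : ∃ X : Fin 3 → ℂ, X = ![(A : ℂ) / N, (b : ℂ) / N, (C : ℂ) / N] := ⟨_, rfl⟩
  rw [x3_c, ← hX] at hBd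
  rw [← hX]
  have hXm : X ∈ Metric.ball (qC α) (r / 2) := by
    rw [hX, ← x3_c]
    exact x3_mem hr hA hb hC
  obtain ⟨V, hV⟩ : ∃ V : ℂ → ℂ, V = fun ζ => VB r N α η X ζ := ⟨_, rfl⟩
  have hVz : ∀ ζ, VB r N α η X ζ = V ζ := by
    intro ζ
    rw [hV]
  simp only [hVz] at hBd ⊢
  have hVc : ∀ z : ℂ, ‖z - zl N k‖ ≤ 1 → DifferentiableAt ℂ (fun z : ℂ => V (z / N)) z := by
    intro z hz
    obtain ⟨m1, m2⟩ := disc_mem hr hN hk hz
    have h1 : DifferentiableAt ℂ V (z / N) := by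
      rw [hV]
      exact V_diff hB hN hN1 hη hXm m1
    exact DifferentiableAt.comp z h1 (differentiableAt_id.div_const _)
  have hα4 : α 4 ≠ 0 := fun h4 => h (hF.z14.2 h4)
  have ha0 : 0 ≤ ja r N (α 1) := by
    apply Int.ceil_nonneg
    have h1 := (hB.sml 1 h).1
    have e : ctr α 1 = α 1 := rfl
    rw [e] at h1
    exact mul_nonneg hN0.le (by linarith)
  have hbb : jb r N (α 1) ≤ (b : ℤ) := by
    have h1 : (jb r N (α 1) : ℝ) ≤ (N : ℝ) * (α 1 + r / 4) := Int.floor_le _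
    have h2 := (hB.sml 4 hα4).1
    have e : ctr α 4 = α 4 := rfl
    rw [e] at h2
    have h3 := (abs_le.1 hb).1
    have h4 : (N : ℝ) * (α 1 + r / 4) ≤ b := by
      rw [mul_comm, ← le_div_iff₀ hN0]
      linarith
    exact_mod_cast h1.trans h4
  obtain ⟨S, hS⟩ : ∃ S : Finset ℕ, S = (range (b + 1)).filter fun j : ℕ => (j : ℤ) ∈ Icc (ja r N (α 1)) (jb r N (α 1)) := ⟨_, rfl⟩
  obtain ⟨S', hS'⟩ : ∃ S' : Finset ℕ, S' = (range (b + 1)).filter fun j : ℕ => ¬ (j : ℤ) ∈ Icc (ja r N (α 1)) (jb r N (α 1)) := ⟨_, rfl⟩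
  have hsplit0 : ∀ z, Wk N z A b C = ∑ j ∈ S, Tm N z A b C j + ∑ j ∈ S', Tm N z A b C j := by
    intro z
    rw [Wk_sum, hS, hS', Finset.sum_filter_add_sum_filter_not]
  have hcore : ∀ z : ℂ, ‖z - zl N k‖ ≤ 1 → ∑ j ∈ S, Tm N z A b C j =
      ∑ y ∈ Icc (ja r N (α 1)) (jb r N (α 1)), PB N α (v4 X ((y : ℂ) / N)) (z / N) := by
    intro z hz
    obtain ⟨m1, m2⟩ := disc_mem hr hN hk hz
    refine Finset.sum_nbij' (fun j : ℕ => (j : ℤ)) Int.toNat ?_ ?_ ?_ ?_ ?_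
    · intro j hj
      rw [hS, Finset.mem_filter] at hj
      exact hj.2
    · intro y hy
      rw [hS, Finset.mem_filter, Finset.mem_range]
      rw [Finset.mem_Icc] at hy
      have h1 : ((y.toNat : ℕ) : ℤ) = y := Int.toNat_of_nonneg (by omega)
      refine ⟨by omega, ?_⟩
      rw [h1, Finset.mem_Icc]
      exact hy
    · intro j hj
      exact Int.toNat_natCast j
    · intro y hy
      rw [Finset.mem_Icc] at hy
      exact Int.toNat_of_nonneg (by omega)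
    · intro j hj
      rw [hS, Finset.mem_filter] at hj
      have h1 := core_mem hr hN hj.2
      have hjb : j ≤ b := by
        have := Finset.mem_range.1 hj.1
        omega
      have h2 := hB.int N A b C j hN1 hjb hc (by linarith) (by linarith) (by linarith)
        (by push_cast at h1; linarith) (z / N) m1
      rw [mul_div_cancel₀ _ hNc] at h2
      rw [h2, hX]
      congr 1
  obtain ⟨g, hg⟩ : ∃ g : ℂ → ℂ, g = fun z => ∑ j ∈ S, Tm N z A b C j - V (z / N) := ⟨_, rfl⟩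
  have hgb : ∀ z : ℂ, ‖z - zl N k‖ ≤ 1 → ‖g z‖ ≤ Bd := by
    intro z hz
    obtain ⟨m1, m2⟩ := disc_mem hr hN hk hz
    have e2 : g z = ∑ j ∈ S, Tm N z A b C j - V (z / N) := by rw [hg]
    rw [e2, hcore z hz]
    exact hBd (z / N) m1 m2
  have hsd : Differentiable ℂ fun z => ∑ j ∈ S, Tm N z A b C j := by
    apply Differentiable.fun_sum
    intro j _
    exact Tm_diff N A b C j
  have hgd : ∀ z : ℂ, ‖z - zl N k‖ ≤ 1 → DifferentiableAt ℂ g z := by
    intro z hz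
    rw [hg]
    exact (hsd z).sub (hVc z hz)
  have hgder : ‖deriv g (zl N k)‖ ≤ Bd := by
    have h1 : DiffContOnCl ℂ g (Metric.ball (zl N k) 1) := by
      apply DifferentiableOn.diffContOnCl
      rw [closure_ball _ one_ne_zero]
      intro z hz
      rw [Metric.mem_closedBall, dist_eq_norm] at hz
      exact (hgd z hz).differentiableWithinAt
    have h2 := Complex.norm_deriv_le_of_forall_mem_sphere_norm_le (C := Bd) one_pos h1 (fun z hz => by
      rw [Metric.mem_sphere, dist_eq_norm] at hz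
      exact hgb z hz.le)
    rwa [div_one] at h2
  have hg0 : ‖g (zl N k)‖ ≤ Bd := hgb _ (by simp)
  have hsplit : ∀ z, Wk N z A b C = ∑ j ∈ S', Tm N z A b C j + g z + V (z / N) := by
    intro z
    rw [hsplit0, hg]
    ring
  have hRd : DifferentiableAt ℂ (fun z => ∑ j ∈ S', Tm N z A b C j) (zl N k) := by
    apply DifferentiableAt.fun_sum
    intro j _
    exact Tm_diff N A b C j _
  have hder : deriv (fun z => Wk N z A b C) (zl N k) = deriv (fun z => ∑ j ∈ S', Tm N z A b C j) (zl N k) +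
      deriv g (zl N k) + deriv (fun z : ℂ => V (z / N)) (zl N k) := by
    have h1 : (fun z => Wk N z A b C) = fun z => (∑ j ∈ S', Tm N z A b C j + g z) + V (z / N) :=
      funext hsplit
    have h2 := (hRd.hasDerivAt.add (hgd _ (by simp)).hasDerivAt).add (hVc (zl N k) (by simp)).hasDerivAt
    rw [h1]
    exact h2.deriv
  rw [hder, hsplit, add_sub_cancel_right, add_sub_cancel_right]
  have t1 := norm_add_le (∑ j ∈ S', Tm N (zl N k) A b C j) (g (zl N k))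
  have t2 := norm_add_le (deriv (fun z => ∑ j ∈ S', Tm N z A b C j) (zl N k)) (deriv g (zl N k))
  have hsum := sum_lt hF hB hN1 hA hb hC
  obtain ⟨k1, k2⟩ := Akb hr hN (sml0 hB).1 hA hk
  obtain ⟨k3, k4⟩ := Akb hr hN (sml0 hB).2 hC hk
  have hR := lat_sum (N := N) (A := A) (b := b) (C := C) (k := k) (S := S')
    (E := C0 * N ^ 2 * Real.exp (eX N α A b C - c1 * N)) ?_
  · have hcard : (S'.card : ℝ) ≤ N := by
      have h1 : S'.card ≤ b + 1 := by
        rw [hS']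
        refine (Finset.card_filter_le _ _).trans ?_
        rw [Finset.card_range]
      have h2 : S'.card ≤ N := by omega
      exact_mod_cast h2
    have h3 : (S'.card : ℝ) * (C0 * N ^ 2 * Real.exp (eX N α A b C - c1 * N)) ≤
        N * (C0 * N ^ 2 * Real.exp (eX N α A b C - c1 * N)) :=
      mul_le_mul_of_nonneg_right hcard (by positivity)
    linarith
  · intro j hj
    rw [hS', Finset.mem_filter, Finset.mem_range] at hj
    have h1 := hL.tw N A b C j k hsum hc (by omega) hkN k1 k2 k3 k4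
    refine h1.trans ?_
    apply mul_le_mul_of_nonneg_left _ (by positivity)
    apply Real.exp_le_exp.2
    have h2 := core_not hr hN hj.2
    push_cast at h2
    have h3 : 0 ≤ dX N α A b C k := by
      unfold dX
      positivity
    have h4 : c1 * N ≤ κ * (dX N α A b C k + ((j : ℝ) - N * α 1) ^ 2) / N := by
      rw [le_div_iff₀ hN0]
      have h5 : κ * (r / 4 * N) ^ 2 ≤ κ * (dX N α A b C k + ((j : ℝ) - N * α 1) ^ 2) :=
        mul_le_mul_of_nonneg_left (by linarith) hκ.le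
      have h6 : c1 * N * N ≤ κ * r ^ 2 / 64 * N * N :=
        mul_le_mul_of_nonneg_right (mul_le_mul_of_nonneg_right hc1 hN0.le) hN0.le
      have h7 : κ * (r / 4 * N) ^ 2 = 4 * (κ * r ^ 2 / 64 * N * N) := by ring
      have h8 : 0 ≤ κ * r ^ 2 / 64 * N * N := by positivity
      linarith
    linarith

theorem task_SJb : S_SJb := by
  intro hG α r κ K C0 ρ hF hB hL
  have hr := hB.r0
  have hr1 := hB.r1
  have hκ := hB.κ0
  have hK : 0 < K := lt_of_lt_of_le hκ hB.κK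
  have hC0 := hB.C1
  have hpi := Real.pi_pos
  obtain ⟨τ, hτ, hτ1, hτ2, hτ3⟩ : ∃ τ : ℝ, 0 < τ ∧ τ ≤ r / 8 ∧ K * τ ≤ Real.pi ∧
      K * τ ^ 2 ≤ κ * r ^ 2 / 256 := by
    obtain ⟨m, hm⟩ : ∃ m, m = min (κ * r / (16 * K)) (Real.pi / K) := ⟨_, rfl⟩
    have hm0 : 0 < m := by rw [hm]; positivity
    have h1 : m ≤ κ * r / (16 * K) := hm ▸ min_le_left _ _
    have h2 : m ≤ Real.pi / K := hm ▸ min_le_right _ _
    refine ⟨m, hm0, ?_, ?_, ?_⟩
    · refine h1.trans ?_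
      rw [div_le_iff₀ (by positivity)]
      have := mul_le_mul_of_nonneg_right hB.κK hr.le
      nlinarith
    · rw [le_div_iff₀ hK] at h2
      linarith
    · have h3 : m ^ 2 ≤ (κ * r / (16 * K)) ^ 2 := pow_le_pow_left₀ hm0.le h1 2
      have h4 : K * (κ * r / (16 * K)) ^ 2 = κ * r ^ 2 / 256 * (κ / K) := by field_simp; norm_num
      have h5 : κ / K ≤ 1 := (div_le_one hK).2 hB.κK
      have h6 : K * m ^ 2 ≤ K * (κ * r / (16 * K)) ^ 2 := mul_le_mul_of_nonneg_left h3 hK.le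
      have h7 : κ * r ^ 2 / 256 * (κ / K) ≤ κ * r ^ 2 / 256 * 1 := mul_le_mul_of_nonneg_left h5 (by positivity)
      linarith
  obtain ⟨c1, hc1⟩ : ∃ c1, c1 = min (Real.pi * τ) (κ * r ^ 2 / 64) := ⟨_, rfl⟩
  have hc1a : c1 ≤ Real.pi * τ := hc1 ▸ min_le_left _ _
  have hc1b : c1 ≤ κ * r ^ 2 / 64 := hc1 ▸ min_le_right _ _
  have hc10 : 0 < c1 := by rw [hc1]; positivity
  obtain ⟨CD, hCD0, hCD⟩ : ∃ C : ℝ, 0 ≤ C ∧ (α 1 ≠ 0 → ∀ N : ℕ, 16 / r ≤ N →
    1 ≤ τ * N → 1 ≤ N → ∀ x : Fin 3 → ℝ, (fun i => (x i : ℂ)) ∈ Metric.ball (qC α) (r / 2) →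
    Ad3 α (fun i => (x i : ℂ)) → ∀ η : ℝ, |η| ≤ τ → ∀ ζ : ℂ, ‖ζ‖ < r → |ζ.im| ≤ 1 / N →
    ‖∑ y ∈ Icc (ja r N (α 1)) (jb r N (α 1)), PB N α (v4 (fun i => (x i : ℂ)) ((y : ℂ) / N)) ζ -
      VB r N α η (fun i => (x i : ℂ)) ζ‖ ≤ C * N * Real.exp (N * (v0 α + mR α x) - c1 * N)) := by
    by_cases h : α 1 = 0
    · exact ⟨0, le_refl _, fun h0 => absurd h h0⟩
    · obtain ⟨C, h1, h2⟩ := D_bd hF hB hG h hτ hτ1 hτ2 hτ3 hc1a hc1b
      exact ⟨C, h1, fun _ => h2⟩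
  refine ⟨τ, c1, hτ, hc10, fun η hη => ⟨C0 + 2 * CD, 3, ⌈max (16 / r) (1 / τ)⌉₊ + 1, fun N hN => ?_⟩⟩
  have hNr : max (16 / r) (1 / τ) ≤ N := by
    have h1 := Nat.le_ceil (max (16 / r) (1 / τ))
    have h2 : ((⌈max (16 / r) (1 / τ)⌉₊ : ℕ) : ℝ) ≤ N := by
      have : ⌈max (16 / r) (1 / τ)⌉₊ ≤ N := by omega
      exact_mod_cast this
    linarith
  have hN16 : 16 / r ≤ N := (le_max_left _ _).trans hNr
  have hNτ : 1 ≤ τ * N := by
    have := (le_max_right (16 / r) (1 / τ)).trans hNr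
    rw [div_le_iff₀ hτ] at this
    linarith
  have hN1 : 1 ≤ N := by omega
  have hN1' : (1 : ℝ) ≤ N := by exact_mod_cast hN1
  have hN0 : (0 : ℝ) < N := by linarith
  have hη2 : |η| ≤ r / 4 := by linarith
  refine ⟨VB_LD hB hN16 hN1 hη2, ?_, ?_⟩
  · intro ξ hξ hA ζ hζ
    refine (VB_bd hF hB hN16 hN1 hη2 hξ hA hζ).trans ?_
    apply mul_le_mul_of_nonneg_right _ (Real.exp_pos _).le
    apply mul_le_mul_of_nonneg_right _ hN0.le
    linarith
  · intro A b C k hc hA hb hC hkN hk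
    by_cases h : α 1 = 0
    · obtain ⟨h1, h2⟩ := case0 η hB hN16 hN1 h hc hA hb hC hk
      rw [h1, h2, sub_self, sub_self, norm_zero, add_zero]
      positivity
    · refine (case1b hF hB hL hN16 hN1 hη2 h hc1b hc hA hb hC hkN hk
        (Bd := CD * N * Real.exp (eX N α A b C - c1 * N)) ?_).trans ?_
      · intro ζ hζ hζi
        have h1 := hCD h N hN16 hNτ hN1 (x3 N A b C) (x3_mem hr hA hb hC) (x3_ad hF hc) η hη ζ hζ hζi
        rw [eX_eq hN1] at h1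
        exact h1
      · obtain ⟨E, hE⟩ : ∃ E : ℝ, E = Real.exp (eX N α A b C - c1 * N) := ⟨_, rfl⟩
        have hE0 : 0 < E := by rw [hE]; exact Real.exp_pos _
        rw [← hE]
        have p2 : (N : ℝ) ≤ N ^ 3 := by
          calc (N : ℝ) = N ^ 1 := (pow_one _).symm
            _ ≤ N ^ 3 := pow_le_pow_right₀ hN1' (by norm_num)
        have q2 : 2 * CD * E * (N : ℝ) ≤ 2 * CD * E * N ^ 3 :=
          mul_le_mul_of_nonneg_left p2 (by positivity)
        calc _ = C0 * N ^ 3 * E + 2 * CD * E * N := by ring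
          _ ≤ C0 * N ^ 3 * E + 2 * CD * E * N ^ 3 := by linarith
          _ = _ := by ring

end Pool.Agent.Q195.HU
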